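import Mathlib

/-!
# The height of the divisors of `x ^ (p ^ 2 q ^ 2) - 1`

Let `H(f)` be the height of an integer polynomial and `B(n)` the largest height of a divisor of
`x ^ n - 1` in `ℤ[x]`. For `p = 19`, `q = 149` the height of
`Φ_p Φ_q Φ_{p²q} Φ_{pq²}` is `801`, the height of `Φ_p Φ_q Φ_{p²} Φ_{q²}` is `361`, and the
divisor `Φ_p Φ_q Φ_{p²q} Φ_{pq²} Φ_{p²q²}` of `x ^ (p²q²) - 1` has the coefficient `-835`.
-/

open Polynomial

namespace Pool.Agent.Results.MP_72c16c_nt.NineteenSquared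

/-- The height of an integer polynomial: the largest absolute value of a coefficient. -/
def height (f : ℤ[X]) : ℕ := f.support.sup fun i => (f.coeff i).natAbs

/-- The heights of the divisors of `x ^ n - 1`. -/
def heights (n : ℕ) : Set ℕ := {h | ∃ f : ℤ[X], f ∣ X ^ n - 1 ∧ height f = h}

/-! ### Bounds on the coefficients -/

/-- All coefficients are at most `M` in absolute value. -/
def Bd (M : ℕ) (f : ℤ[X]) : Prop := ∀ i, (f.coeff i).natAbs ≤ M

theorem height_le {M : ℕ} {f : ℤ[X]} (h : Bd M f) : height f ≤ M :=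
  Finset.sup_le fun i _ => h i

theorem le_height (f : ℤ[X]) (i : ℕ) : (f.coeff i).natAbs ≤ height f := by
  by_cases hi : i ∈ f.support
  · exact Finset.le_sup (f := fun i => (f.coeff i).natAbs) hi
  · rw [notMem_support_iff] at hi
    rw [hi]
    exact Nat.zero_le _

theorem Bd.mul_sub {M : ℕ} {f : ℤ[X]} (h : Bd M f) (e : ℕ) : Bd (2 * M) ((X ^ e - 1) * f) := by
  intro i
  rw [sub_mul, one_mul, coeff_sub, coeff_X_pow_mul']
  have h1 := h i
  split_ifs with he
  · have h2 := h (i - e)
    omega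
  · rw [zero_sub, Int.natAbs_neg]
    omega

/-- The product of the `X ^ e - 1`, `e` in a list. -/
noncomputable def prodE : List ℕ → ℤ[X]
  | [] => 1
  | e :: l => (X ^ e - 1) * prodE l

theorem Bd.mul_prodE {M : ℕ} {f : ℤ[X]} (h : Bd M f) (l : List ℕ) :
    Bd (2 ^ l.length * M) (prodE l * f) := by
  induction l with
  | nil => simpa [prodE] using h
  | cons e l ih =>
    have := ih.mul_sub e
    rw [List.length_cons, pow_succ, mul_comm (2 ^ l.length) 2, mul_assoc, prodE, mul_assoc]
    exact this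

theorem bd_one : Bd 1 (1 : ℤ[X]) := by
  intro i
  rw [coeff_one]
  split_ifs <;> simp

theorem bd_prodE (l : List ℕ) : Bd (2 ^ l.length) (prodE l) := by
  have := bd_one.mul_prodE l
  rwa [mul_one, mul_one] at this

theorem Bd.sub {M N : ℕ} {f g : ℤ[X]} (hf : Bd M f) (hg : Bd N g) : Bd (M + N) (f - g) := by
  intro i
  rw [coeff_sub]
  have := hf i
  have := hg i
  omega

/-- The value of `prodE` at a natural number. -/
def evl (B : ℕ) : List ℕ → ℕ
  | [] => 1
  | e :: l => (B ^ e - 1) * evl B l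

theorem eval_prodE {B : ℕ} (hB : 0 < B) (l : List ℕ) :
    (prodE l).eval (B : ℤ) = (evl B l : ℕ) := by
  induction l with
  | nil => simp [prodE, evl]
  | cons e l ih =>
    have h1 : 1 ≤ B ^ e := Nat.one_le_pow _ _ hB
    rw [prodE, evl, eval_mul, ih, Nat.cast_mul, Nat.cast_sub h1]
    simp

/-- A polynomial with small coefficients and a zero at `B` vanishes. -/
theorem eq_zero_of_eval {M B : ℕ} {q : ℤ[X]} (hq : Bd M q) (hM : M < B)
    (h : q.eval (B : ℤ) = 0) : q = 0 := by
  have hB : (B : ℤ) ≠ 0 := by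
    have : 0 < B := by omega
    exact_mod_cast this.ne'
  have key : ∀ k, q.coeff k = 0 := by
    intro k
    induction k using Nat.strong_induction_on with
    | _ k ih =>
      obtain ⟨r, hr⟩ := X_pow_dvd_iff.2 ih
      have hr0 : r.eval (B : ℤ) = 0 := by
        rw [hr, eval_mul, eval_pow, eval_X] at h
        exact (mul_eq_zero.1 h).resolve_left (pow_ne_zero _ hB)
      have hc : q.coeff k = r.coeff 0 := by
        rw [hr]
        have := coeff_X_pow_mul r k 0
        rwa [zero_add] at this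
      have hd : (B : ℤ) ∣ r.coeff 0 := by
        have := sub_dvd_eval_sub (B : ℤ) 0 r
        rw [hr0, sub_zero, zero_sub, ← coeff_zero_eq_eval_zero, dvd_neg] at this
        exact this
      rw [hc]
      have hb := hq k
      rw [hc] at hb
      rw [← Int.natAbs_eq_zero]
      have hd' : B ∣ (r.coeff 0).natAbs := by
        have := Int.natAbs_dvd_natAbs.2 hd
        rwa [Int.natAbs_natCast] at this
      exact Nat.eq_zero_of_dvd_of_lt hd' (by omega)
  ext k
  rw [key k, coeff_zero]

/-! ### Polynomials from digits -/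

/-- The polynomial whose coefficients, shifted by `K`, are the digits of `z` in base `B`. -/
noncomputable def poly (B K : ℕ) : ℕ → ℕ → ℤ[X]
  | 0, z => C ((z : ℤ) - K)
  | k + 1, z => poly B K k (z % B ^ (2 ^ k)) + X ^ (2 ^ k) * poly B K k (z / B ^ (2 ^ k))

/-- The number all of whose `2 ^ k` digits are one. -/
def Sg (B : ℕ) : ℕ → ℕ
  | 0 => 1
  | k + 1 => Sg B k * (1 + B ^ (2 ^ k))

/-- The coefficients of `poly`. -/
def cf (B K : ℕ) : ℕ → ℕ → ℕ → ℤ
  | 0, z, _ => (z : ℤ) - K
  | k + 1, z, i => if i < 2 ^ k then cf B K k (z % B ^ (2 ^ k)) i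
      else cf B K k (z / B ^ (2 ^ k)) (i - 2 ^ k)

theorem eval_poly (B K k z : ℕ) :
    (poly B K k z).eval (B : ℤ) = (z : ℤ) - K * Sg B k := by
  induction k generalizing z with
  | zero => simp [poly, Sg]
  | succ k ih =>
    rw [poly, eval_add, eval_mul, ih, ih, eval_pow, eval_X, Sg]
    have h := Nat.mod_add_div z (B ^ (2 ^ k))
    have h' : ((z % B ^ (2 ^ k) : ℕ) : ℤ) + (B : ℤ) ^ (2 ^ k) * ((z / B ^ (2 ^ k) : ℕ) : ℤ)
        = (z : ℤ) := by
      exact_mod_cast h
    push_cast at h' ⊢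
    linear_combination h'

theorem coeff_poly_big (B K k z i : ℕ) (hi : 2 ^ k ≤ i) : (poly B K k z).coeff i = 0 := by
  induction k generalizing z i with
  | zero =>
    rw [poly, coeff_C, if_neg (by simp at hi; omega)]
  | succ k ih =>
    have h2 : 2 ^ (k + 1) = 2 ^ k + 2 ^ k := by ring
    rw [poly, coeff_add, coeff_X_pow_mul', if_pos (by omega), ih _ _ (by omega),
      ih _ _ (by omega), add_zero]

theorem coeff_poly (B K k z i : ℕ) (hi : i < 2 ^ k) : (poly B K k z).coeff i = cf B K k z i := by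
  induction k generalizing z i with
  | zero =>
    have : i = 0 := by simpa using hi
    rw [poly, cf, this, coeff_C_zero]
  | succ k ih =>
    have h2 : 2 ^ (k + 1) = 2 ^ k + 2 ^ k := by ring
    rw [poly, coeff_add, coeff_X_pow_mul', cf]
    by_cases h : i < 2 ^ k
    · rw [if_neg (by omega), if_pos h, add_zero, ih _ _ h]
    · rw [if_pos (by omega), if_neg h, coeff_poly_big _ _ _ _ _ (by omega), zero_add,
        ih _ _ (by omega)]

/-- All digits are at most `M`. -/
def dig (B M : ℕ) : ℕ → ℕ → Prop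
  | 0, z => z ≤ M
  | k + 1, z => dig B M k (z % B ^ (2 ^ k)) ∧ dig B M k (z / B ^ (2 ^ k))

theorem bd_poly (B K k z : ℕ) (h : dig B (2 * K) k z) : Bd K (poly B K k z) := by
  induction k generalizing z with
  | zero =>
    intro i
    rw [dig] at h
    rw [poly, coeff_C]
    split_ifs
    · omega
    · simp
  | succ k ih =>
    intro i
    rw [dig] at h
    rw [poly, coeff_add, coeff_X_pow_mul']
    by_cases hi : 2 ^ k ≤ i
    · rw [if_pos hi, coeff_poly_big _ _ _ _ _ hi, zero_add]
      exact ih _ h.2 _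
    · rw [if_neg hi, add_zero]
      exact ih _ h.1 _

theorem Sg_mul (B k : ℕ) (hB : 0 < B) : Sg B k * (B - 1) + 1 = B ^ (2 ^ k) := by
  induction k with
  | zero => simp [Sg]; omega
  | succ k ih =>
    have h2 : 2 ^ (k + 1) = 2 ^ k + 2 ^ k := by ring
    rw [Sg, h2, pow_add]
    obtain ⟨m, hm⟩ : ∃ m, m = B ^ (2 ^ k) := ⟨_, rfl⟩
    rw [← hm] at ih ⊢
    have : Sg B k * (1 + m) * (B - 1) + 1 = (Sg B k * (B - 1)) * (1 + m) + 1 := by ring
    rw [this]
    obtain ⟨s, hs⟩ : ∃ s, s = Sg B k * (B - 1) := ⟨_, rfl⟩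
    rw [← hs] at ih ⊢
    rw [← ih]
    ring

theorem mul_Sg_lt {B c : ℕ} (k : ℕ) (hc : c < B) : c * Sg B k < B ^ (2 ^ k) := by
  have h := Sg_mul B k (by omega)
  have h1 : c * Sg B k ≤ (B - 1) * Sg B k := Nat.mul_le_mul_right _ (by omega)
  rw [mul_comm (B - 1)] at h1
  omega

theorem dig_le {B M : ℕ} (k z : ℕ) (h : dig B M k z) : z ≤ M * Sg B k := by
  induction k generalizing z with
  | zero => simpa [dig, Sg] using h
  | succ k ih =>
    rw [dig] at h
    have h1 := ih _ h.1
    have h2 := ih _ h.2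
    have h3 := Nat.mod_add_div z (B ^ (2 ^ k))
    have h4 := Nat.mul_le_mul_left (B ^ (2 ^ k)) h2
    calc z = z % B ^ (2 ^ k) + B ^ (2 ^ k) * (z / B ^ (2 ^ k)) := h3.symm
      _ ≤ M * Sg B k + B ^ (2 ^ k) * (M * Sg B k) := Nat.add_le_add h1 h4
      _ = M * Sg B (k + 1) := by rw [Sg]; ring

theorem split_add {m a b x y : ℕ} (h : a + x < m) : (a + m * b + (x + m * y)) % m = a + x ∧
    (a + m * b + (x + m * y)) / m = b + y := by
  have h0 : 0 < m := by omega
  have e : a + m * b + (x + m * y) = (a + x) + m * (b + y) := by ring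
  rw [e]
  constructor
  · rw [Nat.add_mul_mod_self_left, Nat.mod_eq_of_lt h]
  · rw [Nat.add_mul_div_left _ _ h0, Nat.div_eq_of_lt h, zero_add]

theorem mul_Sg_succ (B c k : ℕ) : c * Sg B (k + 1) = c * Sg B k + B ^ (2 ^ k) * (c * Sg B k) := by
  rw [Sg]
  ring

/-- A number with vanishing leading bits in all digits has small digits. -/
theorem dig_of_land (w k z : ℕ) (hw : 0 < w) (hz : z < (2 ^ w) ^ (2 ^ k))
    (h : z &&& (2 ^ (w - 1) * Sg (2 ^ w) k) = 0) : dig (2 ^ w) (2 ^ (w - 1) - 1) k z := by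
  induction k generalizing z with
  | zero =>
    rw [dig]
    rw [Sg, mul_one, Nat.and_two_pow] at h
    rw [pow_zero, pow_one] at hz
    have hpos : 0 < 2 ^ (w - 1) := by positivity
    have hb : z.testBit (w - 1) = false := by
      by_contra hb
      rw [Bool.not_eq_false] at hb
      rw [hb] at h
      simp at h
    rw [Nat.testBit_eq_decide_div_mod_eq, decide_eq_false_iff_not] at hb
    have h2 : 2 ^ w = 2 ^ (w - 1) * 2 := by
      rw [← pow_succ]
      congr 1
      omega
    have h3 : z / 2 ^ (w - 1) < 2 := by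
      rw [Nat.div_lt_iff_lt_mul hpos]
      omega
    have h4 : z / 2 ^ (w - 1) = 0 := by
      generalize z / 2 ^ (w - 1) = y at hb h3
      omega
    have h5 : z < 2 ^ (w - 1) := by
      rcases Nat.div_eq_zero_iff.1 h4 with h5 | h5
      · omega
      · exact h5
    omega
  | succ k ih =>
    rw [dig]
    have hm : (2 ^ w) ^ (2 ^ k) = 2 ^ (w * 2 ^ k) := by rw [← pow_mul]
    have hlt : 2 ^ (w - 1) * Sg (2 ^ w) k < (2 ^ w) ^ (2 ^ k) :=
      mul_Sg_lt k (Nat.pow_lt_pow_right (by norm_num) (by omega))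
    have hpos : 0 < (2 ^ w) ^ (2 ^ k) := by positivity
    have hmod : (2 ^ (w - 1) * Sg (2 ^ w) (k + 1)) % (2 ^ w) ^ (2 ^ k)
        = 2 ^ (w - 1) * Sg (2 ^ w) k := by
      rw [mul_Sg_succ, Nat.add_mul_mod_self_left, Nat.mod_eq_of_lt hlt]
    have hdiv : (2 ^ (w - 1) * Sg (2 ^ w) (k + 1)) / (2 ^ w) ^ (2 ^ k)
        = 2 ^ (w - 1) * Sg (2 ^ w) k := by
      rw [mul_Sg_succ, Nat.add_mul_div_left _ _ hpos, Nat.div_eq_of_lt hlt, zero_add]
    constructor
    · apply ih
      · exact Nat.mod_lt _ hpos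
      · rw [← hmod, hm, ← Nat.and_mod_two_pow, h, Nat.zero_mod]
    · apply ih
      · rw [Nat.div_lt_iff_lt_mul hpos, ← pow_add]
        have : 2 ^ k + 2 ^ k = 2 ^ (k + 1) := by ring
        rw [this]
        exact hz
      · rw [← hdiv, hm, ← Nat.and_div_two_pow, h, Nat.zero_div]

/-- Subtracting a constant from all digits. -/
theorem dig_sub {B M N c : ℕ} (hMc : M + c < B) (k z : ℕ) (h : dig B M k z)
    (h' : dig B N k (z + c * Sg B k)) : dig B (N - c) k z := by
  induction k generalizing z with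
  | zero =>
    rw [dig, Sg, mul_one] at h'
    rw [dig]
    omega
  | succ k ih =>
    rw [dig] at h h' ⊢
    have h1 := dig_le _ _ h.1
    have hlt : z % B ^ (2 ^ k) + c * Sg B k < B ^ (2 ^ k) := by
      have h2 := mul_Sg_lt (B := B) (c := M + c) k hMc
      rw [add_mul] at h2
      omega
    have hs := split_add (b := z / B ^ (2 ^ k)) (y := c * Sg B k) hlt
    have e : z + c * Sg B (k + 1) = z % B ^ (2 ^ k) + B ^ (2 ^ k) * (z / B ^ (2 ^ k)) +
        (c * Sg B k + B ^ (2 ^ k) * (c * Sg B k)) := by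
      rw [Nat.mod_add_div, mul_Sg_succ]
    rw [e, hs.1, hs.2] at h'
    exact ⟨ih _ h.1 h'.1, ih _ h.2 h'.2⟩

/-- The test: all digits of `z` in base `2 ^ 16` are at most `M`. -/
def tst (M k z : ℕ) : Bool :=
  Nat.ble (z + (32767 - M) * Sg 65536 k + 1) (65536 ^ (2 ^ k)) &&
  (Nat.beq (Nat.land z (32768 * Sg 65536 k)) 0 &&
    Nat.beq (Nat.land (z + (32767 - M) * Sg 65536 k) (32768 * Sg 65536 k)) 0)

theorem dig_of_tst {M k z : ℕ} (hM : M ≤ 32767) (h : tst M k z = true) : dig 65536 M k z := by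
  rw [tst, Bool.and_eq_true, Bool.and_eq_true] at h
  obtain ⟨h1, h2, h3⟩ := h
  have h1' := Nat.le_of_ble_eq_true h1
  have h2' : z &&& (32768 * Sg 65536 k) = 0 := Nat.eq_of_beq_eq_true h2
  have h3' : (z + (32767 - M) * Sg 65536 k) &&& (32768 * Sg 65536 k) = 0 :=
    Nat.eq_of_beq_eq_true h3
  have a1 := dig_of_land 16 k z (by norm_num)
    (lt_of_lt_of_le (by omega) h1') h2'
  have a2 := dig_of_land 16 k (z + (32767 - M) * Sg 65536 k) (by norm_num)
    (lt_of_lt_of_le (by omega) h1') h3'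
  have := dig_sub (B := 65536) (M := 32767) (N := 32767) (c := 32767 - M) (by omega) k z a1 a2
  have e : 32767 - (32767 - M) = M := by omega
  rwa [e] at this

/-- The main tool: a quotient of products of the `X ^ e - 1` is identified from its value. -/
theorem eq_poly {K k P : ℕ} {D N : List ℕ} {p : ℤ[X]} (hp : prodE D * p = prodE N)
    (hv : P * evl 65536 D = evl 65536 N) (hK : 2 * K ≤ 32767)
    (hc : tst (2 * K) k (P + K * Sg 65536 k) = true)
    (hD : evl 65536 D ≠ 0) (hB : 2 ^ D.length * K + 2 ^ N.length < 65536) :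
    p = poly 65536 K k (P + K * Sg 65536 k) := by
  have hB0 : 0 < 65536 := by norm_num
  have hbd := ((bd_poly 65536 K k _ (dig_of_tst hK hc)).mul_prodE D).sub (bd_prodE N)
  have hev : (prodE D * poly 65536 K k (P + K * Sg 65536 k) - prodE N).eval ((65536 : ℕ) : ℤ)
      = 0 := by
    rw [eval_sub, eval_mul, eval_prodE hB0, eval_prodE hB0, eval_poly]
    have : ((P * evl 65536 D : ℕ) : ℤ) = (evl 65536 N : ℕ) := by rw [hv]
    push_cast at this ⊢
    linear_combination this
  have h0 := eq_zero_of_eval hbd hB hev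
  have h1 : prodE D * poly 65536 K k (P + K * Sg 65536 k) = prodE D * p := by
    rw [hp]
    exact sub_eq_zero.1 h0
  have hne : prodE D ≠ 0 := by
    intro h
    have := eval_prodE hB0 D
    rw [h, eval_zero] at this
    exact hD (by exact_mod_cast this.symm)
  exact (mul_left_cancel₀ hne h1).symm

/-! ### Products of cyclotomic polynomials -/

/-- The number of members of a list divisible by `d`. -/
def cnt (d : ℕ) : List ℕ → ℕ
  | [] => 0
  | e :: l => (if d ∣ e then 1 else 0) + cnt d l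

theorem X_pow_sub_one_eq {n e : ℕ} (hn : n ≠ 0) (he : e ∣ n) :
    (X ^ e - 1 : ℤ[X]) = ∏ d ∈ n.divisors, cyclotomic d ℤ ^ (if d ∣ e then 1 else 0) := by
  have he0 : 0 < e := Nat.pos_of_dvd_of_pos he (Nat.pos_of_ne_zero hn)
  have h : e.divisors = n.divisors.filter (fun d => d ∣ e) := by
    ext d
    simp only [Nat.mem_divisors, Finset.mem_filter]
    constructor
    · rintro ⟨h1, -⟩
      exact ⟨⟨h1.trans he, hn⟩, h1⟩
    · rintro ⟨-, h1⟩
      exact ⟨h1, he0.ne'⟩
  rw [← prod_cyclotomic_eq_X_pow_sub_one he0, h, Finset.prod_filter]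
  refine Finset.prod_congr rfl fun d _ => ?_
  split_ifs <;> simp

theorem prodE_eq {n : ℕ} (hn : n ≠ 0) (l : List ℕ) (hl : ∀ e ∈ l, e ∣ n) :
    prodE l = ∏ d ∈ n.divisors, cyclotomic d ℤ ^ cnt d l := by
  induction l with
  | nil => simp [prodE, cnt]
  | cons e l ih =>
    rw [prodE, ih (fun x hx => hl x (List.mem_cons_of_mem _ hx)),
      X_pow_sub_one_eq hn (hl e List.mem_cons_self), ← Finset.prod_mul_distrib]
    refine Finset.prod_congr rfl fun d _ => ?_
    rw [cnt, pow_add]

theorem identity_of {n : ℕ} (hn : n ≠ 0) {L M : List ℕ} (hL : ∀ e ∈ L, e ∣ n)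
    (hM : ∀ e ∈ M, e ∣ n) {w : ℕ → ℕ} (h : ∀ d ∈ n.divisors, cnt d L + w d = cnt d M) :
    prodE L * ∏ d ∈ n.divisors, cyclotomic d ℤ ^ w d = prodE M := by
  rw [prodE_eq hn L hL, prodE_eq hn M hM, ← Finset.prod_mul_distrib]
  refine Finset.prod_congr rfl fun d hd => ?_
  rw [← pow_add, h d hd]

theorem prod_T {n : ℕ} {T : Finset ℕ} (hT : T ⊆ n.divisors) : ∏ d ∈ T, cyclotomic d ℤ
    = ∏ d ∈ n.divisors, cyclotomic d ℤ ^ (if d ∈ T then 1 else 0) := by
  have h : T = n.divisors.filter (· ∈ T) := by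
    ext d
    rw [Finset.mem_filter]
    exact ⟨fun hd => ⟨hT hd, hd⟩, fun hd => hd.2⟩
  conv_lhs => rw [h]
  rw [Finset.prod_filter]
  refine Finset.prod_congr rfl fun d _ => ?_
  split_ifs <;> simp

theorem identity_T {n : ℕ} (hn : n ≠ 0) {L M : List ℕ} (hL : ∀ e ∈ L, e ∣ n)
    (hM : ∀ e ∈ M, e ∣ n) {T D : Finset ℕ} (hT : T ⊆ n.divisors) (hD : n.divisors ⊆ D)
    (h : ∀ d ∈ D, cnt d L + (if d ∈ T then 1 else 0) = cnt d M) :
    prodE L * ∏ d ∈ T, cyclotomic d ℤ = prodE M := by
  rw [prod_T hT]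
  exact identity_of hn hL hM (fun d hd => h d (hD hd))

/-! ### The coefficients of a product with a polynomial in `x ^ m` -/

theorem coeff_mul_expand (a b : ℤ[X]) {m N i : ℕ} (hi : i < m * N) :
    (a * expand ℤ m b).coeff i
      = ∑ j ∈ Finset.range N, b.coeff j * (if m * j ≤ i then a.coeff (i - m * j) else 0) := by
  classical
  have h1 : (a * expand ℤ m b).coeff i
      = ∑ j ∈ b.support, b.coeff j * (if m * j ≤ i then a.coeff (i - m * j) else 0) := by
    rw [expand_eq_sum, Polynomial.sum, Finset.mul_sum, finsetSum_coeff]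
    refine Finset.sum_congr rfl fun j _ => ?_
    rw [← pow_mul, mul_left_comm, coeff_C_mul, coeff_mul_X_pow']
  rw [h1]
  have h2 : ∀ j ∈ b.support ∪ Finset.range N, j ∉ b.support →
      b.coeff j * (if m * j ≤ i then a.coeff (i - m * j) else 0) = 0 := by
    intro j _ hj
    rw [notMem_support_iff.1 hj, zero_mul]
  have h3 : ∀ j ∈ b.support ∪ Finset.range N, j ∉ Finset.range N →
      b.coeff j * (if m * j ≤ i then a.coeff (i - m * j) else 0) = 0 := by
    intro j _ hj
    rw [Finset.mem_range, not_lt] at hj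
    have : m * N ≤ m * j := Nat.mul_le_mul_left _ hj
    rw [if_neg (by omega), mul_zero]
  rw [Finset.sum_subset Finset.subset_union_left h2,
    ← Finset.sum_subset Finset.subset_union_right h3]

/-- A sum over `2 ^ k` consecutive numbers. -/
def sm (g : ℕ → ℤ) : ℕ → ℕ → ℤ
  | 0, a => g a
  | k + 1, a => sm g k a + sm g k (a + 2 ^ k)

theorem sm_eq (g : ℕ → ℤ) (k a : ℕ) : ∑ j ∈ Finset.range (2 ^ k), g (a + j) = sm g k a := by
  induction k generalizing a with
  | zero => simp [sm]
  | succ k ih =>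
    have h2 : 2 ^ (k + 1) = 2 ^ k + 2 ^ k := by ring
    rw [h2, Finset.sum_range_add, ih, sm, ← ih (a + 2 ^ k)]
    congr 1
    refine Finset.sum_congr rfl fun j _ => ?_
    rw [add_assoc]

/-! ### The primes `19` and `149` -/

/-- The first product. -/
noncomputable def first (p q : ℕ) : ℤ[X] :=
  cyclotomic p ℤ * cyclotomic q ℤ * cyclotomic (p ^ 2 * q) ℤ * cyclotomic (p * q ^ 2) ℤ

/-- The second product. -/
noncomputable def second (p q : ℕ) : ℤ[X] :=
  cyclotomic p ℤ * cyclotomic q ℤ * cyclotomic (p ^ 2) ℤ * cyclotomic (q ^ 2) ℤ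

theorem divisors_subset : Nat.divisors 8014561 ⊆
    ({1, 19, 361, 149, 2831, 53789, 22201, 421819, 8014561} : Finset ℕ) := by
  intro d hd
  have h := Nat.dvd_of_mem_divisors hd
  have e : 8014561 = 19 ^ 2 * 149 ^ 2 := by norm_num
  rw [e] at h
  obtain ⟨x, y, hx, hy, rfl⟩ := (Nat.dvd_mul).1 h
  obtain ⟨i, hi, rfl⟩ := (Nat.dvd_prime_pow (by norm_num)).1 hx
  obtain ⟨j, hj, rfl⟩ := (Nat.dvd_prime_pow (by norm_num)).1 hy
  interval_cases i <;> interval_cases j <;> decide

theorem divisors_subset' : Nat.divisors 2831 ⊆ ({1, 19, 149, 2831} : Finset ℕ) := by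
  intro d hd
  have h := Nat.dvd_of_mem_divisors hd
  have e : 2831 = 19 ^ 1 * 149 ^ 1 := by norm_num
  rw [e] at h
  obtain ⟨x, y, hx, hy, rfl⟩ := (Nat.dvd_mul).1 h
  obtain ⟨i, hi, rfl⟩ := (Nat.dvd_prime_pow (by norm_num)).1 hx
  obtain ⟨j, hj, rfl⟩ := (Nat.dvd_prime_pow (by norm_num)).1 hy
  interval_cases i <;> interval_cases j <;> decide

/-- The indices of the first product. -/
def T1 : Finset ℕ := {19, 149, 53789, 421819}

/-- The indices of the second product. -/
def T2 : Finset ℕ := {19, 149, 361, 22201}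

theorem T1_sub : T1 ⊆ Nat.divisors 8014561 := by
  intro d hd
  rw [Nat.mem_divisors]
  refine ⟨?_, by norm_num⟩
  simp only [T1, Finset.mem_insert, Finset.mem_singleton] at hd
  rcases hd with rfl | rfl | rfl | rfl <;> norm_num

theorem T2_sub : T2 ⊆ Nat.divisors 8014561 := by
  intro d hd
  rw [Nat.mem_divisors]
  refine ⟨?_, by norm_num⟩
  simp only [T2, Finset.mem_insert, Finset.mem_singleton] at hd
  rcases hd with rfl | rfl | rfl | rfl <;> norm_num

theorem first_eq : first 19 149 = ∏ d ∈ T1, cyclotomic d ℤ := by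
  rw [T1, Finset.prod_insert (by decide), Finset.prod_insert (by decide),
    Finset.prod_insert (by decide), Finset.prod_singleton, first]
  have e1 : 19 ^ 2 * 149 = 53789 := by norm_num
  have e2 : 19 * 149 ^ 2 = 421819 := by norm_num
  rw [e1, e2, mul_assoc, mul_assoc]

theorem second_eq : second 19 149 = ∏ d ∈ T2, cyclotomic d ℤ := by
  rw [T2, Finset.prod_insert (by decide), Finset.prod_insert (by decide),
    Finset.prod_insert (by decide), Finset.prod_singleton, second]
  have e1 : 19 ^ 2 = 361 := by norm_num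
  have e2 : 149 ^ 2 = 22201 := by norm_num
  rw [e1, e2, mul_assoc, mul_assoc]

/-- The exponents. -/
def N1 : List ℕ := [19, 19, 149, 149, 53789, 421819]

/-- The exponents. -/
def D1 : List ℕ := [1, 1, 2831, 2831, 361, 22201]

theorem first_identity : prodE D1 * first 19 149 = prodE N1 := by
  rw [first_eq]
  exact identity_T (n := 8014561) (by norm_num) (by decide +kernel) (by decide +kernel) T1_sub
    divisors_subset (by decide +kernel)

theorem second_identity : prodE [1, 1] * second 19 149 = prodE [361, 22201] := by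
  rw [second_eq]
  exact identity_T (n := 8014561) (by norm_num) (by decide +kernel) (by decide +kernel) T2_sub
    divisors_subset (by decide +kernel)

theorem psi_identity : prodE [19, 149] * cyclotomic 2831 ℤ = prodE [2831, 1] := by
  have h : cyclotomic 2831 ℤ = ∏ d ∈ ({2831} : Finset ℕ), cyclotomic d ℤ := by
    rw [Finset.prod_singleton]
  rw [h]
  refine identity_T (n := 2831) (by norm_num) (by decide +kernel) (by decide +kernel) ?_
    divisors_subset' (by decide +kernel)
  intro d hd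
  rw [Finset.mem_singleton] at hd
  rw [hd, Nat.mem_divisors]
  exact ⟨dvd_rfl, by norm_num⟩

/-- The number coding the first product. -/
def Z1 : ℕ := evl 65536 N1 / evl 65536 D1 + 801 * Sg 65536 19

/-- The number coding the second product. -/
def Z2 : ℕ := evl 65536 [361, 22201] / evl 65536 [1, 1] + 361 * Sg 65536 15

/-- The number coding the cyclotomic polynomial. -/
def Z3 : ℕ := evl 65536 [2831, 1] / evl 65536 [19, 149] + 1 * Sg 65536 12

theorem v1 : evl 65536 N1 / evl 65536 D1 * evl 65536 D1 = evl 65536 N1 := by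
  decide +kernel

theorem v2 : evl 65536 [361, 22201] / evl 65536 [1, 1] * evl 65536 [1, 1]
    = evl 65536 [361, 22201] := by
  decide +kernel

theorem v3 : evl 65536 [2831, 1] / evl 65536 [19, 149] * evl 65536 [19, 149]
    = evl 65536 [2831, 1] := by
  decide +kernel

theorem t1 : tst (2 * 801) 19 (evl 65536 N1 / evl 65536 D1 + 801 * Sg 65536 19) = true := by
  decide +kernel

theorem t2 : tst (2 * 361) 15
    (evl 65536 [361, 22201] / evl 65536 [1, 1] + 361 * Sg 65536 15) = true := by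
  decide +kernel

theorem t3 : tst (2 * 1) 12
    (evl 65536 [2831, 1] / evl 65536 [19, 149] + 1 * Sg 65536 12) = true := by
  decide +kernel

theorem first_poly : first 19 149 = poly 65536 801 19 Z1 :=
  eq_poly first_identity v1 (by norm_num) t1 (by decide +kernel) (by decide +kernel)

theorem second_poly : second 19 149 = poly 65536 361 15 Z2 :=
  eq_poly second_identity v2 (by norm_num) t2 (by decide +kernel) (by decide +kernel)

theorem psi_poly : cyclotomic 2831 ℤ = poly 65536 1 12 Z3 :=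
  eq_poly psi_identity v3 (by norm_num) t3 (by decide +kernel) (by decide +kernel)

theorem height_first : height (first 19 149) ≤ 801 := by
  rw [first_poly]
  exact height_le (bd_poly _ _ _ _ (dig_of_tst (by norm_num) t1))

theorem height_second : height (second 19 149) ≤ 361 := by
  rw [second_poly]
  exact height_le (bd_poly _ _ _ _ (dig_of_tst (by norm_num) t2))

theorem big_eq : cyclotomic 8014561 ℤ = expand ℤ 2831 (cyclotomic 2831 ℤ) := by
  have h1 := cyclotomic_expand_eq_cyclotomic (p := 19) (n := 2831) (by norm_num) (by norm_num) ℤ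
  have h2 := cyclotomic_expand_eq_cyclotomic (p := 149) (n := 2831 * 19) (by norm_num)
    (by norm_num) ℤ
  rw [← h1, ← expand_mul] at h2
  exact h2.symm

/-- The summands of the coefficient. -/
def term (j : ℕ) : ℤ := cf 65536 1 12 Z3 j *
  (if 2831 * j ≤ 1456798 then
    (if 1456798 - 2831 * j < 524288 then cf 65536 801 19 Z1 (1456798 - 2831 * j) else 0) else 0)

theorem sum_value : sm term 10 0 = -835 := by
  decide +kernel

theorem coeff_f : (first 19 149 * cyclotomic 8014561 ℤ).coeff 1456798 = -835 := by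
  rw [big_eq, coeff_mul_expand (N := 2 ^ 10) _ _ (by norm_num), ← sum_value, ← sm_eq]
  refine Finset.sum_congr rfl fun j hj => ?_
  rw [zero_add]
  rw [Finset.mem_range] at hj
  rw [psi_poly, coeff_poly _ _ _ _ _ (lt_of_lt_of_le hj (by norm_num)), term]
  congr 1
  by_cases h : 2831 * j ≤ 1456798
  · rw [if_pos h, if_pos h, first_poly]
    by_cases h' : 1456798 - 2831 * j < 524288
    · rw [if_pos h']
      exact coeff_poly _ _ _ _ _ (lt_of_lt_of_le h' (by norm_num))
    · rw [if_neg h']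
      exact coeff_poly_big _ _ _ _ _ (le_trans (by norm_num) (not_lt.1 h'))
  · rw [if_neg h, if_neg h]

theorem height_f : 835 ≤ height (first 19 149 * cyclotomic 8014561 ℤ) := by
  have h := le_height (first 19 149 * cyclotomic 8014561 ℤ) 1456798
  rw [coeff_f] at h
  exact h

theorem notMem_T1 : 8014561 ∉ T1 := by
  decide +kernel

theorem f_dvd_aux {n : ℕ} (hn : 0 < n) (g : ℤ[X]) (hg : g = ∏ d ∈ T1, cyclotomic d ℤ)
    (hT : T1 ⊆ n.divisors) (hnT : n ∉ T1) : g * cyclotomic n ℤ ∣ (X ^ n - 1 : ℤ[X]) := by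
  have h : g * cyclotomic n ℤ = ∏ d ∈ insert n T1, cyclotomic d ℤ := by
    rw [Finset.prod_insert hnT, hg, mul_comm]
  rw [h, ← prod_cyclotomic_eq_X_pow_sub_one hn]
  apply Finset.prod_dvd_prod_of_subset
  intro d hd
  rcases Finset.mem_insert.1 hd with rfl | hd
  · rw [Nat.mem_divisors]
    exact ⟨dvd_rfl, hn.ne'⟩
  · exact hT hd

theorem f_dvd : first 19 149 * cyclotomic 8014561 ℤ ∣ (X ^ 8014561 - 1 : ℤ[X]) :=
  f_dvd_aux (by norm_num) _ first_eq T1_sub notMem_T1

theorem finite_heights {n : ℕ} (hn : 0 < n) : (heights n).Finite := by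
  classical
  have hne : (X ^ n - 1 : ℤ[X]) ≠ 0 := (monic_X_pow_sub_C (1 : ℤ) hn.ne').ne_zero
  have hu : Finite (ℤ[X])ˣ := by
    have : Function.Surjective (Units.map (C : ℤ →+* ℤ[X]).toMonoidHom) := by
      intro u
      obtain ⟨r, hr, hru⟩ := Polynomial.isUnit_iff.1 u.isUnit
      obtain ⟨v, rfl⟩ := hr
      exact ⟨v, Units.ext hru⟩
    exact Finite.of_surjective _ this
  have := Fintype.ofFinite (ℤ[X])ˣ
  have hF : Finite {f : ℤ[X] // f ∣ X ^ n - 1} :=
    @Finite.of_fintype _ (UniqueFactorizationMonoid.fintypeSubtypeDvd (X ^ n - 1 : ℤ[X]) hne)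
  have hfin : {f : ℤ[X] | f ∣ X ^ n - 1}.Finite := hF
  refine (hfin.image height).subset ?_
  rintro h ⟨f, hf, rfl⟩
  exact ⟨f, hf, rfl⟩

theorem result : Nat.Prime 19 ∧ Nat.Prime 149 ∧
    (∃ f : ℤ[X], f ∣ X ^ (19 ^ 2 * 149 ^ 2) - 1 ∧ height (first 19 149) < height f ∧
      height (second 19 149) < height f) ∧
    ∃ b, IsGreatest (heights (19 ^ 2 * 149 ^ 2)) b ∧
      b ≠ max (height (first 19 149)) (height (second 19 149)) := by
  have e : 19 ^ 2 * 149 ^ 2 = 8014561 := by norm_num
  rw [e]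
  have h1 : height (first 19 149) < height (first 19 149 * cyclotomic 8014561 ℤ) :=
    lt_of_le_of_lt height_first (lt_of_lt_of_le (by norm_num) height_f)
  have h2 : height (second 19 149) < height (first 19 149 * cyclotomic 8014561 ℤ) :=
    lt_of_le_of_lt height_second (lt_of_lt_of_le (by norm_num) height_f)
  refine ⟨by norm_num, by norm_num, ⟨_, f_dvd, h1, h2⟩, ?_⟩
  have hfin := finite_heights (n := 8014561) (by norm_num)
  have hmem : height (first 19 149 * cyclotomic 8014561 ℤ) ∈ heights 8014561 :=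
    ⟨_, f_dvd, rfl⟩
  have hs := Nat.sSup_mem ⟨_, hmem⟩ hfin.bddAbove
  have hle : height (first 19 149 * cyclotomic 8014561 ℤ) ≤ sSup (heights 8014561) :=
    le_csSup hfin.bddAbove hmem
  refine ⟨sSup (heights 8014561), ⟨hs, fun x hx => le_csSup hfin.bddAbove hx⟩, ?_⟩
  have h3 := max_lt h1 h2
  exact (lt_of_lt_of_le h3 hle).ne'

end Pool.Agent.Results.MP_72c16c_nt.NineteenSquared
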